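import Pool.Agent.Helper87.Irr.GoalsA

/-!
# Packets A15 - A18 (`Split1`, `Split2`, `Split3`, `Split3e`)
-/

namespace Irr87

namespace Split

/-- the three largest elements and the smallest one -/
lemma tops {p q : ℕ} {R : Finset ℕ} (hR : R ⊆ Finset.Icc 1 p) (hq : R.card = q) (h4 : 4 ≤ q) :
    ∃ M1 ∈ R, ∃ M2 ∈ R, ∃ M3 ∈ R, ∃ m ∈ R, 1 ≤ m ∧ m < M3 ∧ M3 < M2 ∧ M2 < M1 ∧ M1 ≤ p ∧
      q + m ≤ M1 + 1 ∧ q + m ≤ M2 + 2 ∧ q + m ≤ M3 + 3 := by
  have hn : R.Nonempty := Finset.card_pos.1 (by omega)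
  set m := R.min' hn with hm
  set M1 := R.max' hn with hM1
  have hm1 : m ∈ R := Finset.min'_mem _ _
  have hM1R : M1 ∈ R := Finset.max'_mem _ _
  have c1 : (R.erase M1).card = q - 1 := by rw [Finset.card_erase_of_mem hM1R, hq]
  have hn1 : (R.erase M1).Nonempty := Finset.card_pos.1 (by omega)
  set M2 := (R.erase M1).max' hn1 with hM2
  have hM2R : M2 ∈ R.erase M1 := Finset.max'_mem _ _
  have c2 : ((R.erase M1).erase M2).card = q - 2 := by
    rw [Finset.card_erase_of_mem hM2R, c1]; omega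
  have hn2 : ((R.erase M1).erase M2).Nonempty := Finset.card_pos.1 (by omega)
  set M3 := ((R.erase M1).erase M2).max' hn2 with hM3
  have hM3R : M3 ∈ (R.erase M1).erase M2 := Finset.max'_mem _ _
  have hM2' := Finset.mem_erase.1 hM2R
  have hM3' := Finset.mem_erase.1 hM3R
  have hM3'' := Finset.mem_erase.1 hM3'.2
  have s1 : R ⊆ Finset.Icc m M1 := fun x hx =>
    Finset.mem_Icc.2 ⟨Finset.min'_le _ _ hx, Finset.le_max' _ _ hx⟩
  have s2 : R.erase M1 ⊆ Finset.Icc m M2 := fun x hx =>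
    Finset.mem_Icc.2 ⟨Finset.min'_le _ _ (Finset.mem_of_mem_erase hx), Finset.le_max' _ _ hx⟩
  have s3 : (R.erase M1).erase M2 ⊆ Finset.Icc m M3 := fun x hx =>
    Finset.mem_Icc.2 ⟨Finset.min'_le _ _ (Finset.mem_of_mem_erase (Finset.mem_of_mem_erase hx)),
      Finset.le_max' _ _ hx⟩
  have t1 := Finset.card_le_card s1
  have t2 := Finset.card_le_card s2
  have t3 := Finset.card_le_card s3
  rw [Nat.card_Icc] at t1 t2 t3
  rw [hq] at t1
  rw [c1] at t2
  rw [c2] at t3
  have a1 := Finset.mem_Icc.1 (hR hm1)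
  have a2 := Finset.mem_Icc.1 (hR hM1R)
  have b1 : M2 ≤ M1 := Finset.le_max' _ _ hM2'.2
  have b2 : M3 ≤ M2 := Finset.le_max' _ _ hM3'.2
  have b3 := hM2'.1
  have b4 := hM3'.1
  refine ⟨M1, hM1R, M2, hM2'.2, M3, hM3''.2, m, hm1, a1.1, ?_, ?_, ?_, a2.2, ?_, ?_, ?_⟩ <;> omega

lemma card_le_sum {B : Multiset ℕ} (h : ∀ a ∈ B, 1 ≤ a) : Multiset.card B ≤ B.sum := by
  have := Multiset.card_nsmul_le_sum (s := B) (a := 1) h
  simpa using this

/-- splitting of the filling labels -/
lemma splitM (F : Multiset ℕ) (l k1 k2 : ℕ) (h : Multiset.card F = l + k1 + k2) (hk : k1 ≤ k2)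
    (h1 : ∀ a ∈ F, 1 ≤ a) : ∃ A B C : Multiset ℕ, Multiset.card A = l ∧ Multiset.card B = k1 ∧
      Multiset.card C = k2 ∧ A + B + C = F ∧ B.sum + (k2 - k1) ≤ C.sum ∧ k1 ≤ B.sum := by
  induction F using Quotient.inductionOn with
  | h L =>
    have hL : L.length = l + k1 + k2 := by simpa using h
    have hL1 : ∀ a ∈ L, 1 ≤ a := fun a ha => h1 a (by simpa using ha)
    set A : List ℕ := L.take l with hA
    set L' : List ℕ := L.drop l with hL'
    set B : List ℕ := L'.take k1 with hB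
    set L'' : List ℕ := L'.drop k1 with hL''
    set C : List ℕ := L''.take k1 with hC
    set D : List ℕ := L''.drop k1 with hD
    have e1 : A ++ L' = L := List.take_append_drop _ _
    have e2 : B ++ L'' = L' := List.take_append_drop _ _
    have e3 : C ++ D = L'' := List.take_append_drop _ _
    have lA : A.length = l := by rw [hA, List.length_take]; omega
    have lL' : L'.length = k1 + k2 := by rw [hL', List.length_drop]; omega
    have lB : B.length = k1 := by rw [hB, List.length_take]; omega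
    have lL'' : L''.length = k2 := by rw [hL'', List.length_drop]; omega
    have lC : C.length = k1 := by rw [hC, List.length_take]; omega
    have lD : D.length = k2 - k1 := by rw [hD, List.length_drop]; omega
    have hF : (A : Multiset ℕ) + B + (C + D) = (L : Multiset ℕ) := by
      rw [← e1, ← e2, ← e3]
      simp only [← Multiset.coe_add, add_assoc]
    have mB : ∀ a ∈ (B : Multiset ℕ), 1 ≤ a := fun a ha => hL1 a (by
      have : a ∈ B := by simpa using ha
      rw [← e1, ← e2]; simp [this])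
    have mC : ∀ a ∈ (C : Multiset ℕ), 1 ≤ a := fun a ha => hL1 a (by
      have : a ∈ C := by simpa using ha
      rw [← e1, ← e2, ← e3]; simp [this])
    have mD : ∀ a ∈ (D : Multiset ℕ), 1 ≤ a := fun a ha => hL1 a (by
      have : a ∈ D := by simpa using ha
      rw [← e1, ← e2, ← e3]; simp [this])
    have sB := card_le_sum mB
    have sC := card_le_sum mC
    have sD := card_le_sum mD
    simp only [Multiset.coe_card, lB, lC, lD] at sB sC sD
    rcases le_total (B : Multiset ℕ).sum (C : Multiset ℕ).sum with hBC | hBC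
    · refine ⟨A, B, C + D, by simpa using lA, by simpa using lB, ?_, hF, ?_, sB⟩
      · rw [Multiset.card_add, Multiset.coe_card, Multiset.coe_card, lC, lD]; omega
      · rw [Multiset.sum_add]; omega
    · refine ⟨A, C, B + D, by simpa using lA, by simpa using lC, ?_, ?_, ?_, sC⟩
      · rw [Multiset.card_add, Multiset.coe_card, Multiset.coe_card, lB, lD]; omega
      · refine Eq.trans ?_ hF
        abel
      · rw [Multiset.sum_add]; omega

lemma PTcond_symm {p s S S' : ℕ} (h : PTcond p s S S') : PTcond p s S' S := by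
  unfold PTcond at h ⊢
  rw [min_comm, max_comm]
  exact h

end Split

open Split

theorem split1 : Split1 := by
  intro p s R l l₁ l₂ hR hs hl h1 h2
  obtain ⟨M1, hM1, M2, hM2, M3, hM3, m, hm, k0, k1, k2, k3, k4, j1, j2, j3⟩ :=
    tops hR rfl (by omega)
  have hne : M1 ≠ m := by omega
  refine ⟨{M1, m}, ?_, Finset.card_pair hne, ?_⟩
  · intro x hx
    simp only [Finset.mem_insert, Finset.mem_singleton] at hx
    rcases hx with rfl | rfl <;> assumption
  intro fill hf _ hc
  have hv : ({M1, m} : Finset ℕ).val = M1 ::ₘ m ::ₘ 0 := by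
    rw [Finset.insert_val_of_notMem (by simpa using hne)]; rfl
  rw [hv]
  have key : ∀ l₁ l₂ : ℕ, 2 ≤ l₁ → l₁ ≤ l₂ → Multiset.card fill + 2 = l + l₁ + l₂ →
      ∃ A A₁ A₂ : Multiset ℕ, Multiset.card A = l ∧ Multiset.card A₁ = l₁ ∧
        Multiset.card A₂ = l₂ ∧ A + A₁ + A₂ = (M1 ::ₘ m ::ₘ 0) + fill ∧
        PTcond p s (A₁.sum + p) (A₂.sum + p) := by
    intro l₁ l₂ h1 h12 hc
    obtain ⟨A, B, C, a1, a2, a3, a4, a5, a6⟩ := splitM fill l (l₁ - 1) (l₂ - 1) (by omega)
      (by omega) (fun a ha => (hf a ha).1)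
    refine ⟨A, m ::ₘ B, M1 ::ₘ C, a1, ?_, ?_, ?_, ?_⟩
    · rw [Multiset.card_cons, a2]; omega
    · rw [Multiset.card_cons, a3]; omega
    · rw [← a4]
      simp only [← Multiset.singleton_add, add_zero]
      abel
    · rw [Multiset.sum_cons, Multiset.sum_cons]
      unfold PTcond
      omega
  rcases le_total l₁ l₂ with h12 | h12
  · exact key l₁ l₂ h1 h12 hc
  · obtain ⟨A, A₁, A₂, a1, a2, a3, a4, a5⟩ := key l₂ l₁ h2 h12 (by omega)
    refine ⟨A, A₂, A₁, a1, a3, a2, ?_, PTcond_symm a5⟩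
    rw [← a4]; abel

theorem split2 : Split2 := by
  intro p s R l l₁ l₂ hR hs hl h1 h2
  obtain ⟨M1, hM1, M2, hM2, M3, hM3, m, hm, k0, k1, k2, k3, k4, j1, j2, j3⟩ :=
    tops hR rfl (by omega)
  have hqp : R.card ≤ p := by
    have := Finset.card_le_card hR
    simpa using this
  have hv : ({M1, M2, m} : Finset ℕ).val = M1 ::ₘ M2 ::ₘ m ::ₘ 0 := by
    rw [Finset.insert_val_of_notMem (by simp; omega), Finset.insert_val_of_notMem (by simp; omega)]
    rfl
  refine ⟨{M1, M2, m}, ?_, ?_, ?_⟩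
  · intro x hx
    simp only [Finset.mem_insert, Finset.mem_singleton] at hx
    rcases hx with rfl | rfl | rfl <;> assumption
  · rw [Finset.card_def, hv]; rfl
  intro fill hf _ hc
  rw [hv]
  rcases Nat.lt_or_ge (l₁ - 1) (l₂ - 2) with h12 | h12
  · obtain ⟨A, B, C, a1, a2, a3, a4, a5, a6⟩ := splitM fill l (l₁ - 1) (l₂ - 2) (by omega)
      (by omega) (fun a ha => (hf a ha).1)
    refine ⟨A, m ::ₘ B, M1 ::ₘ M2 ::ₘ C, a1, ?_, ?_, ?_, ?_⟩
    · rw [Multiset.card_cons, a2]; omega
    · rw [Multiset.card_cons, Multiset.card_cons, a3]; omega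
    · rw [← a4]
      simp only [← Multiset.singleton_add, add_zero]
      abel
    · rw [Multiset.sum_cons, Multiset.sum_cons, Multiset.sum_cons]
      unfold PTcond
      omega
  · obtain ⟨A, B, C, a1, a2, a3, a4, a5, a6⟩ := splitM fill l (l₂ - 2) (l₁ - 1) (by omega)
      (by omega) (fun a ha => (hf a ha).1)
    refine ⟨A, M1 ::ₘ C, M2 ::ₘ m ::ₘ B, a1, ?_, ?_, ?_, ?_⟩
    · rw [Multiset.card_cons, a3]; omega
    · rw [Multiset.card_cons, Multiset.card_cons, a2]; omega
    · rw [← a4]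
      simp only [← Multiset.singleton_add, add_zero]
      abel
    · rw [Multiset.sum_cons, Multiset.sum_cons, Multiset.sum_cons]
      unfold PTcond
      omega

theorem split3 : Split3 := by
  intro p s R l l₁ l₂ hR hs hl h1 h2
  obtain ⟨M1, hM1, M2, hM2, M3, hM3, m, hm, k0, k1, k2, k3, k4, j1, j2, j3⟩ :=
    tops hR rfl (by omega)
  have hqp : R.card ≤ p := by
    have := Finset.card_le_card hR
    simpa using this
  have hv : ({M1, M2, M3} : Finset ℕ).val = M1 ::ₘ M2 ::ₘ M3 ::ₘ 0 := by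
    rw [Finset.insert_val_of_notMem (by simp; omega), Finset.insert_val_of_notMem (by simp; omega)]
    rfl
  refine ⟨{M1, M2, M3}, ?_, ?_, ?_⟩
  · intro x hx
    simp only [Finset.mem_insert, Finset.mem_singleton] at hx
    rcases hx with rfl | rfl | rfl <;> assumption
  · rw [Finset.card_def, hv]; rfl
  intro fill hf _ hc
  rw [hv]
  obtain ⟨A, B, C, a1, a2, a3, a4, a5, a6⟩ := splitM fill l (l₁ - 1) (l₂ - 2) (by omega)
    (by omega) (fun a ha => (hf a ha).1)
  refine ⟨A, M3 ::ₘ B, M1 ::ₘ M2 ::ₘ C, a1, ?_, ?_, ?_, ?_⟩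
  · rw [Multiset.card_cons, a2]; omega
  · rw [Multiset.card_cons, Multiset.card_cons, a3]; omega
  · rw [← a4]
    simp only [← Multiset.singleton_add, add_zero]
    abel
  · rw [Multiset.sum_cons, Multiset.sum_cons, Multiset.sum_cons]
    unfold PTcond
    omega

theorem split3e : Split3e := by
  intro p s R l l₁ hR hs hl h1
  obtain ⟨M1, hM1, M2, hM2, M3, hM3, m, hm, k0, k1, k2, k3, k4, j1, j2, j3⟩ :=
    tops hR rfl (by omega)
  have hqp : R.card ≤ p := by
    have := Finset.card_le_card hR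
    simpa using this
  have hv : ({M1, M2, M3, m} : Finset ℕ).val = M1 ::ₘ M2 ::ₘ M3 ::ₘ m ::ₘ 0 := by
    rw [Finset.insert_val_of_notMem (by simp; omega), Finset.insert_val_of_notMem (by simp; omega),
      Finset.insert_val_of_notMem (by simp; omega)]
    rfl
  refine ⟨{M1, M2, M3, m}, ?_, ?_, ?_⟩
  · intro x hx
    simp only [Finset.mem_insert, Finset.mem_singleton] at hx
    rcases hx with rfl | rfl | rfl | rfl <;> assumption
  · rw [Finset.card_def, hv]; rfl
  intro fill hf _ hc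
  rw [hv]
  obtain ⟨A, B, C, a1, a2, a3, a4, a5, a6⟩ := splitM fill l (l₁ - 2) (l₁ - 2) (by omega)
    (by omega) (fun a ha => (hf a ha).1)
  refine ⟨A, M3 ::ₘ m ::ₘ B, M1 ::ₘ M2 ::ₘ C, a1, ?_, ?_, ?_, ?_⟩
  · rw [Multiset.card_cons, Multiset.card_cons, a2]; omega
  · rw [Multiset.card_cons, Multiset.card_cons, a3]; omega
  · rw [← a4]
    simp only [← Multiset.singleton_add, add_zero]
    abel
  · rw [Multiset.sum_cons, Multiset.sum_cons, Multiset.sum_cons, Multiset.sum_cons]
    unfold PTcond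
    omega

end Irr87
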